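import Pool.Agent.L7h26.RL.Rep

/-!
# Equivalences, Cauchy–Schwarz and log-convexity
-/

set_option autoImplicit false

namespace Pool.Agent.L7h26.RL

open Finset
open Pool.Agent.L7h85.RL

universe u

variable {Ob : Type u} (𝒮 : Sys Ob)

variable {𝒮} in
lemma er (A : Ob) : 𝒮.Eqv A A := fun _ => rfl

variable {𝒮} in
lemma es {A B : Ob} (h : 𝒮.Eqv A B) : 𝒮.Eqv B A := fun C => (h C).symm

variable {𝒮} in
lemma et {A B C : Ob} (h : 𝒮.Eqv A B) (h' : 𝒮.Eqv B C) : 𝒮.Eqv A C := fun D => (h D).trans (h' D)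

variable {𝒮} in
lemma tr {A A' : Ob} (h : 𝒮.Eqv A A') (X : Ob) : 𝒮.Eqv (𝒮.ten A X) (𝒮.ten A' X) := by
  intro C
  rw [𝒮.adj, 𝒮.adj, h]

lemma tc (A B : Ob) : 𝒮.Eqv (𝒮.ten A B) (𝒮.ten B A) := fun C => 𝒮.comm A B C

variable {𝒮} in
lemma tl {A A' : Ob} (h : 𝒮.Eqv A A') (X : Ob) : 𝒮.Eqv (𝒮.ten X A) (𝒮.ten X A') :=
  et (tc 𝒮 X A) (et (tr h X) (tc 𝒮 A' X))

lemma ta (A B C : Ob) : 𝒮.Eqv (𝒮.ten (𝒮.ten A B) C) (𝒮.ten A (𝒮.ten B C)) :=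
  fun D => 𝒮.assoc A B C D

lemma dd (A : Ob) : 𝒮.Eqv (𝒮.dual (𝒮.dual A)) A := fun C => 𝒮.dual_dual A C

variable {𝒮} in
lemma hh {A A' B B' : Ob} (h : 𝒮.Eqv A A') (h' : 𝒮.Eqv B B') : 𝒮.h A B = 𝒮.h A' B' := by
  rw [h, 𝒮.h_symm, h', 𝒮.h_symm]

lemma nrm_eqv (O B : Ob) : 𝒮.Eqv (𝒮.ten (𝒮.ten (𝒮.dual O) B) (𝒮.dual (𝒮.dual O)))
    (𝒮.ten (𝒮.ten O B) (𝒮.dual O)) := by
  refine et (tl (dd 𝒮 O) _) ?_
  refine et (tr (tc 𝒮 _ _) _) ?_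
  refine et (ta 𝒮 _ _ _) ?_
  refine et (tl (tc 𝒮 _ _) _) ?_
  refine et (es (ta 𝒮 _ _ _)) ?_
  exact tr (tc 𝒮 _ _) _

lemma h_ten_ten (O A B : Ob) :
    𝒮.h (𝒮.ten O A) (𝒮.ten O B) = 𝒮.h A (𝒮.ten (𝒮.ten O B) (𝒮.dual O)) := by
  rw [𝒮.comm, 𝒮.adj]

/-- tensoring with `O` and with its dual gives the same numbers -/
lemma nrm (O A B : Ob) : 𝒮.h (𝒮.ten (𝒮.dual O) A) (𝒮.ten (𝒮.dual O) B) =
    𝒮.h (𝒮.ten O A) (𝒮.ten O B) := by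
  rw [h_ten_ten, h_ten_ten]
  exact hh (er A) (nrm_eqv 𝒮 O B)

variable {𝒮} in
lemma rep_sum (r : Pool.Agent.L7h85.RL.Rep 𝒮) {T : Finset r.I} {A : Ob}
    (hA : (r.v A).support ⊆ T) (B : Ob) : 𝒮.h A B = ∑ t ∈ T, r.v A t * r.v B t := by
  rw [r.h_eq]
  exact Finsupp.sum_of_support_subset _ hA _ (fun i _ => zero_mul _)

variable {𝒮} in
lemma rep_sum2 (r : Pool.Agent.L7h85.RL.Rep 𝒮) {T : Finset r.I} {α β : Type*} [Fintype α]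
    [Fintype β] (p : α → ℕ) (q : β → ℕ) {X : α → Ob} (Y : β → Ob)
    (hX : ∀ i, (r.v (X i)).support ⊆ T) :
    ∑ i, ∑ j, p i * q j * 𝒮.h (X i) (Y j) =
      ∑ t ∈ T, (∑ i, p i * r.v (X i) t) * (∑ j, q j * r.v (Y j) t) := by
  have h1 : ∀ i j, p i * q j * 𝒮.h (X i) (Y j) =
      ∑ t ∈ T, (p i * r.v (X i) t) * (q j * r.v (Y j) t) := by
    intro i j
    rw [rep_sum r (hX i), Finset.mul_sum]
    exact Finset.sum_congr rfl fun t _ => by ring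
  have h2 : ∀ i, ∑ j, p i * q j * 𝒮.h (X i) (Y j) =
      ∑ t ∈ T, (p i * r.v (X i) t) * ∑ j, (q j * r.v (Y j) t) := by
    intro i
    rw [Finset.sum_congr rfl fun j _ => h1 i j, Finset.sum_comm]
    exact Finset.sum_congr rfl fun t _ => by rw [Finset.mul_sum]
  rw [Finset.sum_congr rfl fun i _ => h2 i, Finset.sum_comm]
  exact Finset.sum_congr rfl fun t _ => by rw [Finset.sum_mul]

/-- Cauchy–Schwarz -/
theorem cs {ι κ : Type*} [Fintype ι] [Fintype κ] (a : ι → ℕ) (b : κ → ℕ) (Z : ι → Ob)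
    (W : κ → Ob) :
    (∑ i, ∑ j, a i * b j * 𝒮.h (Z i) (W j)) ^ 2 ≤
      (∑ i, ∑ j, a i * a j * 𝒮.h (Z i) (Z j)) * (∑ i, ∑ j, b i * b j * 𝒮.h (W i) (W j)) := by
  classical
  obtain ⟨r⟩ := s_REP 𝒮
  set T : Finset r.I := (Finset.univ.biUnion fun i => (r.v (Z i)).support) ∪
    (Finset.univ.biUnion fun j => (r.v (W j)).support) with hT
  have hZ : ∀ i, (r.v (Z i)).support ⊆ T := fun i =>
    (Finset.subset_biUnion_of_mem (fun i => (r.v (Z i)).support) (Finset.mem_univ i)).trans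
      Finset.subset_union_left
  have hW : ∀ j, (r.v (W j)).support ⊆ T := fun j =>
    (Finset.subset_biUnion_of_mem (fun j => (r.v (W j)).support) (Finset.mem_univ j)).trans
      Finset.subset_union_right
  rw [rep_sum2 r a b W hZ, rep_sum2 r a a Z hZ, rep_sum2 r b b W hW]
  have := Finset.sum_mul_sq_le_sq_mul_sq T (fun t => ∑ i, a i * r.v (Z i) t)
    (fun t => ∑ j, b j * r.v (W j) t)
  simpa only [sq] using this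

/-- Log-convexity along the powers of `O`. -/
theorem s_LOG : S_LOG.{u} := by
  intro Ob 𝒮 O ι _ a Y n
  have h1 : ∀ i j, 𝒮.h (𝒮.it O (Y i) (n + 1)) (𝒮.it O (Y j) (n + 1)) =
      𝒮.h (𝒮.it O (Y i) n) (𝒮.ten (𝒮.ten O (𝒮.it O (Y j) n)) (𝒮.dual O)) := fun i j =>
    h_ten_ten 𝒮 O _ _
  have h2 : ∀ i j, 𝒮.h (𝒮.it O (Y i) (n + 2)) (𝒮.it O (Y j) (n + 2)) =
      𝒮.h (𝒮.ten (𝒮.ten O (𝒮.it O (Y i) n)) (𝒮.dual O))
        (𝒮.ten (𝒮.ten O (𝒮.it O (Y j) n)) (𝒮.dual O)) := by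
    intro i j
    rw [hh (tc 𝒮 _ _) (tc 𝒮 _ _), nrm]
    rfl
  simp only [h1, h2]
  exact cs 𝒮 a a _ _

end Pool.Agent.L7h26.RL
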