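import Pool.Agent.L7h85.RL.Stm

/-!
# The simple types of a system
-/

set_option autoImplicit false

namespace Pool.Agent.L7h26.RL

open Finset
open Pool.Agent.L7h85.RL

universe u

variable {Ob : Type u} (𝒮 : Sys Ob)

lemma simple_dec {S : Ob} (hS : 𝒮.h S S = 1) : ∃ T : Ob, 0 < 𝒮.dim T ∧
    (∀ B, 𝒮.h S B = 𝒮.h T B) ∧ 𝒮.dim S = 𝒮.dim T ∧
    (∀ B B', 𝒮.h T B * 𝒮.h T B' ≤ 𝒮.h B B') ∧ (∀ B, 𝒮.h T B * 𝒮.dim T ≤ 𝒮.dim B) := by
  obtain ⟨D⟩ := 𝒮.dec S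
  have hm : ∀ c, 𝒮.h S (D.S c) = D.m c := by
    intro c
    rw [D.par]
    simp [D.ortho]
  have hsum : ∑ c, D.m c * D.m c = 1 := by
    rw [← hS, D.par]
    exact Finset.sum_congr rfl fun c _ => by rw [𝒮.h_symm (D.S c) S, hm]
  have hcard : Fintype.card D.C ≤ 1 := by
    rw [← hsum, Fintype.card_eq_sum_ones]
    exact Finset.sum_le_sum fun c _ => Nat.mul_pos (D.m_pos c) (D.m_pos c)
  haveI : Subsingleton D.C := Fintype.card_le_one_iff_subsingleton.1 hcard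
  have hne : Nonempty D.C := by
    by_contra h
    rw [not_nonempty_iff] at h
    rw [Finset.univ_eq_empty, Finset.sum_empty] at hsum
    exact absurd hsum (by norm_num)
  obtain ⟨c⟩ := hne
  have hmc : D.m c = 1 := by
    rw [Fintype.sum_subsingleton _ c] at hsum
    exact Nat.eq_one_of_mul_eq_one_right hsum
  refine ⟨D.S c, D.dim_pos c, ?_, ?_, ?_, ?_⟩
  · intro B
    rw [D.par, Fintype.sum_subsingleton _ c, hmc, one_mul]
  · rw [D.dim_eq, Fintype.sum_subsingleton _ c, hmc, one_mul]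
  · intro B B'
    have := D.bessel B B'
    rwa [Fintype.sum_subsingleton _ c] at this
  · intro B
    have := D.bessel_dim B
    rwa [Fintype.sum_subsingleton _ c] at this

lemma bes {S : Ob} (hS : 𝒮.h S S = 1) (B B' : Ob) : 𝒮.h S B * 𝒮.h S B' ≤ 𝒮.h B B' := by
  obtain ⟨T, _, h1, _, h2, _⟩ := simple_dec 𝒮 hS
  rw [h1, h1]
  exact h2 B B'

lemma besd {S : Ob} (hS : 𝒮.h S S = 1) (B : Ob) : 𝒮.h S B * 𝒮.dim S ≤ 𝒮.dim B := by
  obtain ⟨T, _, h1, h3, _, h2⟩ := simple_dec 𝒮 hS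
  rw [h1, h3]
  exact h2 B

lemma dpos {S : Ob} (hS : 𝒮.h S S = 1) : 0 < 𝒮.dim S := by
  obtain ⟨T, h1, _, h3, _, _⟩ := simple_dec 𝒮 hS
  rw [h3]
  exact h1

lemma le_one {S S' : Ob} (hS : 𝒮.h S S = 1) (hS' : 𝒮.h S' S' = 1) : 𝒮.h S S' ≤ 1 := by
  have h := bes 𝒮 hS S' S'
  rw [hS'] at h
  nlinarith

lemma ne_zero_trans {S S' T : Ob} (hS : 𝒮.h S S = 1) (h : 𝒮.h S S' ≠ 0) (hT : 𝒮.h S T ≠ 0) :
    𝒮.h S' T ≠ 0 := by
  have h1 := bes 𝒮 hS S' T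
  have h2 := Nat.mul_pos (Nat.pos_of_ne_zero h) (Nat.pos_of_ne_zero hT)
  omega

lemma eqv {S S' : Ob} (hS : 𝒮.h S S = 1) (hS' : 𝒮.h S' S' = 1) (h : 𝒮.h S S' ≠ 0) (B : Ob) :
    𝒮.h S B = 𝒮.h S' B := by
  have h' : 𝒮.h S' S ≠ 0 := by rwa [𝒮.h_symm]
  have key : ∀ T, 𝒮.h T T = 1 → 𝒮.h S T = 𝒮.h S' T := by
    intro T hT
    have h1 := le_one 𝒮 hS hT
    have h2 := le_one 𝒮 hS' hT
    have h3 := ne_zero_trans 𝒮 (T := T) hS h
    have h4 := ne_zero_trans 𝒮 (T := T) hS' h'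
    by_cases h5 : 𝒮.h S T = 0
    · have : 𝒮.h S' T = 0 := by
        by_contra h6
        exact h4 h6 h5
      rw [h5, this]
    · have := h3 h5
      omega
  obtain ⟨D⟩ := 𝒮.dec B
  rw [𝒮.h_symm S B, 𝒮.h_symm S' B, D.par, D.par]
  refine Finset.sum_congr rfl fun c _ => ?_
  rw [𝒮.h_symm (D.S c) S, 𝒮.h_symm (D.S c) S', key _ (by rw [D.ortho, if_pos rfl])]

lemma dim_eqv {S S' : Ob} (hS : 𝒮.h S S = 1) (hS' : 𝒮.h S' S' = 1) (h : 𝒮.h S S' ≠ 0) :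
    𝒮.dim S = 𝒮.dim S' := by
  have h' : 𝒮.h S' S ≠ 0 := by rwa [𝒮.h_symm]
  have h1 := besd 𝒮 hS S'
  have h2 := besd 𝒮 hS' S
  have h3 := Nat.pos_of_ne_zero h
  have h4 := Nat.pos_of_ne_zero h'
  apply le_antisymm
  · calc 𝒮.dim S = 1 * 𝒮.dim S := (one_mul _).symm
      _ ≤ 𝒮.h S S' * 𝒮.dim S := Nat.mul_le_mul_right _ h3
      _ ≤ _ := h1
  · calc 𝒮.dim S' = 1 * 𝒮.dim S' := (one_mul _).symm
      _ ≤ 𝒮.h S' S * 𝒮.dim S' := Nat.mul_le_mul_right _ h4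
      _ ≤ _ := h2

/-- the simple objects up to equivalence -/
def smp : Setoid {S : Ob // 𝒮.h S S = 1} where
  r S S' := 𝒮.h S.1 S'.1 ≠ 0
  iseqv :=
    { refl := fun S => by rw [S.2]; exact one_ne_zero
      symm := fun {S S'} h => by rwa [𝒮.h_symm]
      trans := fun {S S' S''} h h' => by
        have h1 : 𝒮.h S'.1 S.1 ≠ 0 := by rwa [𝒮.h_symm]
        exact ne_zero_trans 𝒮 S'.2 h1 h' }

/-- Every system has simple types. -/
theorem s_REP : S_REP.{u} := by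
  intro Ob 𝒮
  classical
  let := smp 𝒮
  set I : Type u := Quotient (smp 𝒮) with hI
  let s : I → Ob := fun i => (Quotient.out i).1
  have hs : ∀ i, 𝒮.h (s i) (s i) = 1 := fun i => (Quotient.out i).2
  have hsq : ∀ S : {S : Ob // 𝒮.h S S = 1}, 𝒮.h (s (Quotient.mk _ S)) S.1 ≠ 0 := by
    intro S
    exact Quotient.mk_out (s := smp 𝒮) S
  have hcl : ∀ {A : Ob} (D : Dec 𝒮.h 𝒮.dim A) (c : D.C), 𝒮.h (D.S c) (D.S c) = 1 :=
    fun D c => by rw [D.ortho, if_pos rfl]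
  let cl : ∀ {A : Ob} (D : Dec 𝒮.h 𝒮.dim A), D.C → I := fun D c => Quotient.mk _ ⟨D.S c, hcl D c⟩
  have hscl : ∀ {A : Ob} (D : Dec 𝒮.h 𝒮.dim A) (c : D.C) (B : Ob),
      𝒮.h (s (cl D c)) B = 𝒮.h (D.S c) B := fun D c B =>
    eqv 𝒮 (hs _) (hcl D c) (hsq ⟨D.S c, hcl D c⟩) B
  have hdcl : ∀ {A : Ob} (D : Dec 𝒮.h 𝒮.dim A) (c : D.C),
      𝒮.dim (s (cl D c)) = 𝒮.dim (D.S c) := fun D c =>
    dim_eqv 𝒮 (hs _) (hcl D c) (hsq ⟨D.S c, hcl D c⟩)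
  have hinj : ∀ {A : Ob} (D : Dec 𝒮.h 𝒮.dim A), Function.Injective (cl D) := by
    intro A D c c' h
    by_contra hne
    have h1 : 𝒮.h (D.S c) (D.S c') ≠ 0 := Quotient.exact (s := smp 𝒮) h
    rw [D.ortho, if_neg hne] at h1
    exact h1 rfl
  have hij : ∀ i j, i ≠ j → 𝒮.h (s i) (s j) = 0 := by
    intro i j hne
    by_contra h
    apply hne
    rw [← Quotient.out_eq i, ← Quotient.out_eq j]
    exact Quotient.sound (s := smp 𝒮) h
  have hsupp : ∀ {A : Ob} (D : Dec 𝒮.h 𝒮.dim A) (i : I), 𝒮.h (s i) A ≠ 0 →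
      i ∈ Finset.univ.image (cl D) := by
    intro A D i hi
    rw [𝒮.h_symm, D.par] at hi
    obtain ⟨c, _, hc⟩ := Finset.exists_ne_zero_of_sum_ne_zero hi
    rw [Finset.mem_image]
    refine ⟨c, Finset.mem_univ _, ?_⟩
    have h1 : 𝒮.h (D.S c) (s i) ≠ 0 := right_ne_zero_of_mul hc
    have h2 : 𝒮.h (s (cl D c)) (s i) ≠ 0 := by rwa [hscl]
    by_contra hne
    exact h2 (hij _ _ hne)
  have hDm : ∀ {A : Ob} (D : Dec 𝒮.h 𝒮.dim A) (c : D.C), 𝒮.h (D.S c) A = D.m c := by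
    intro A D c
    rw [𝒮.h_symm, D.par]
    simp [D.ortho]
  let v : Ob → I →₀ ℕ := fun A =>
    Finsupp.onFinset (Finset.univ.image (cl (𝒮.dec A).some)) (fun i => 𝒮.h (s i) A)
      (fun i hi => hsupp _ i hi)
  have hv : ∀ A i, v A i = 𝒮.h (s i) A := fun A i => rfl
  have hsum : ∀ (A : Ob) (f : I → ℕ → ℕ), (∀ i, f i 0 = 0) →
      (v A).sum f = ∑ c, f (cl (𝒮.dec A).some c) ((𝒮.dec A).some.m c) := by
    intro A f hf
    rw [Finsupp.sum_of_support_subset (v A) (s := Finset.univ.image (cl (𝒮.dec A).some))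
      (fun i hi => hsupp _ i (by rw [← hv]; exact Finsupp.mem_support_iff.1 hi)) f
      (fun i _ => hf i), Finset.sum_image (fun c _ c' _ h => hinj _ h)]
    refine Finset.sum_congr rfl fun c _ => ?_
    rw [hv, hscl, hDm]
  refine ⟨⟨I, v, s, ?_, ?_, ?_, ?_⟩⟩
  · intro i
    ext j
    rw [hv]
    by_cases h : i = j
    · subst h
      rw [hs, Finsupp.single_eq_same]
    · rw [hij j i (fun h' => h h'.symm), Finsupp.single_eq_of_ne (fun h' => h h'.symm)]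
  · intro A B
    rw [hsum A (fun i m => m * v B i) (fun i => zero_mul _), (𝒮.dec A).some.par]
    refine Finset.sum_congr rfl fun c _ => ?_
    rw [hv, hscl]
  · intro A
    rw [hsum A (fun i m => m * 𝒮.dim (s i)) (fun i => zero_mul _), (𝒮.dec A).some.dim_eq]
    refine Finset.sum_congr rfl fun c _ => ?_
    rw [hdcl]
  · intro i
    exact dpos 𝒮 (hs i)

end Pool.Agent.L7h26.RL
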