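import Pool.Agent.L7h26.RL.Log

/-!
# The sum of the squares of the dimensions
-/

set_option autoImplicit false

namespace Pool.Agent.L7h26.RL

open Finset Filter Topology
open Pool.Agent.L7h85.RL

universe u

variable {Ob : Type u} (𝒮 : Sys Ob)

lemma pw_add (O : Ob) (n j : ℕ) :
    𝒮.Eqv (𝒮.ten (𝒮.pw O j) (𝒮.pw O n)) (𝒮.pw O (n + j + 1)) := by
  induction j with
  | zero => exact er _
  | succ j ih => exact et (ta 𝒮 _ _ _) (tl ih O)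

lemma h_mid (P Y : Ob) : 𝒮.h (𝒮.ten (𝒮.ten P (𝒮.dual P)) Y) Y = 𝒮.h (𝒮.ten P Y) (𝒮.ten P Y) := by
  rw [h_ten_ten, 𝒮.h_symm]
  refine hh (er Y) ?_
  refine et (tc 𝒮 _ _) ?_
  refine et (es (ta 𝒮 _ _ _)) ?_
  exact tr (tc 𝒮 _ _) _

lemma h_wq (O : Ob) (n j : ℕ) : 𝒮.h (𝒮.ten (𝒮.wq O j) (𝒮.pw O n)) (𝒮.pw O n) =
    𝒮.h (𝒮.pw O (n + j + 1)) (𝒮.pw O (n + j + 1)) := by
  rw [Sys.wq, h_mid]
  exact hh (pw_add 𝒮 O n j) (pw_add 𝒮 O n j)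

lemma dim_pw (O : Ob) (n : ℕ) : 𝒮.dim (𝒮.pw O n) = 𝒮.dim O ^ (n + 1) := by
  induction n with
  | zero => simp [Sys.pw]
  | succ n ih => rw [Sys.pw, 𝒮.dim_ten, ih]; ring

lemma dim_wq (O : Ob) (n : ℕ) : 𝒮.dim (𝒮.wq O n) = 𝒮.dim O ^ (2 * (n + 1)) := by
  rw [Sys.wq, 𝒮.dim_ten, 𝒮.dim_dual, dim_pw]; ring

/-- a family of different simple objects -/
lemma fam_simple {ι : Type*} [Fintype ι] {S : ι → Ob} (hS : ∀ i, 𝒮.h (S i) (S i) = 1)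
    (ho : ∀ i j, i ≠ j → 𝒮.h (S i) (S j) = 0) {T : Ob} (hT : 𝒮.h T T = 1) :
    ∑ i, 𝒮.h T (S i) * 𝒮.dim (S i) ≤ 𝒮.dim T := by
  classical
  by_cases h : ∃ i, 𝒮.h T (S i) ≠ 0
  · obtain ⟨i, hi⟩ := h
    rw [Finset.sum_eq_single i]
    · have := besd 𝒮 (hS i) T
      rwa [𝒮.h_symm T]
    · intro j _ hj
      by_contra h
      exact ne_zero_trans 𝒮 hT (left_ne_zero_of_mul h) hi (ho j i hj)
    · intro h
      exact absurd (Finset.mem_univ i) h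
  · push Not at h
    simp [h]

lemma fam {ι : Type*} [Fintype ι] {S : ι → Ob} (hS : ∀ i, 𝒮.h (S i) (S i) = 1)
    (ho : ∀ i j, i ≠ j → 𝒮.h (S i) (S j) = 0) (A : Ob) :
    ∑ i, 𝒮.h (S i) A * 𝒮.dim (S i) ≤ 𝒮.dim A := by
  obtain ⟨D⟩ := 𝒮.dec A
  have h1 : ∀ i, 𝒮.h (S i) A * 𝒮.dim (S i) =
      ∑ c, D.m c * (𝒮.h (D.S c) (S i) * 𝒮.dim (S i)) := by
    intro i
    rw [𝒮.h_symm, D.par, Finset.sum_mul]
    exact Finset.sum_congr rfl fun c _ => by ring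
  rw [Finset.sum_congr rfl fun i _ => h1 i, Finset.sum_comm, D.dim_eq]
  refine Finset.sum_le_sum fun c _ => ?_
  rw [← Finset.mul_sum]
  exact Nat.mul_le_mul_left _ (fam_simple 𝒮 hS ho (by rw [D.ortho, if_pos rfl]))

lemma defect_le (hSCH : S_SCH.{u}) {S B : Ob} (hS : 𝒮.h S S = 1) (hSB : 𝒮.h S B ≠ 0) (Y : Ob) :
    𝒮.dim S * 𝒮.h Y Y + 𝒮.h (𝒮.ten B Y) Y ≤ 𝒮.dim B * 𝒮.h Y Y + 𝒮.h (𝒮.ten S Y) Y := by
  obtain ⟨D⟩ := 𝒮.dec B
  have hadj : ∀ A, 𝒮.h (𝒮.ten A Y) Y = 𝒮.h A (𝒮.ten Y (𝒮.dual Y)) := fun A => 𝒮.adj A Y Y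
  have hpar : 𝒮.h (𝒮.ten B Y) Y = ∑ c, D.m c * 𝒮.h (𝒮.ten (D.S c) Y) Y := by
    rw [hadj, D.par]
    exact Finset.sum_congr rfl fun c _ => by rw [hadj]
  rw [𝒮.h_symm, D.par] at hSB
  obtain ⟨c, _, hc⟩ := Finset.exists_ne_zero_of_sum_ne_zero hSB
  have hc' : 𝒮.h (D.S c) S ≠ 0 := right_ne_zero_of_mul hc
  have hcc : 𝒮.h (D.S c) (D.S c) = 1 := by rw [D.ortho, if_pos rfl]
  have e1 : 𝒮.dim (D.S c) = 𝒮.dim S := dim_eqv 𝒮 hcc hS hc'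
  have e2 : 𝒮.h (𝒮.ten (D.S c) Y) Y = 𝒮.h (𝒮.ten S Y) Y := by
    rw [hadj, hadj, eqv 𝒮 hcc hS hc']
  have h1 : ((𝒮.dim S * 𝒮.h Y Y : ℕ) : ℤ) - (𝒮.h (𝒮.ten S Y) Y : ℤ) ≤
      ∑ c, (D.m c : ℤ) * ((𝒮.dim (D.S c) * 𝒮.h Y Y : ℕ) - (𝒮.h (𝒮.ten (D.S c) Y) Y : ℤ)) := by
    have hnn : ∀ c, (0 : ℤ) ≤ (𝒮.dim (D.S c) * 𝒮.h Y Y : ℕ) - (𝒮.h (𝒮.ten (D.S c) Y) Y : ℤ) := by
      intro c
      have := hSCH 𝒮 Y (D.S c)
      have : (𝒮.h (𝒮.ten (D.S c) Y) Y : ℤ) ≤ (𝒮.dim (D.S c) * 𝒮.h Y Y : ℕ) := by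
        exact_mod_cast this
      linarith
    have h2 : (D.m c : ℤ) * ((𝒮.dim (D.S c) * 𝒮.h Y Y : ℕ) - (𝒮.h (𝒮.ten (D.S c) Y) Y : ℤ)) ≤
        ∑ c, (D.m c : ℤ) * ((𝒮.dim (D.S c) * 𝒮.h Y Y : ℕ) - (𝒮.h (𝒮.ten (D.S c) Y) Y : ℤ)) :=
      Finset.single_le_sum (f := fun c => (D.m c : ℤ) * ((𝒮.dim (D.S c) * 𝒮.h Y Y : ℕ) -
        (𝒮.h (𝒮.ten (D.S c) Y) Y : ℤ))) (fun c _ => mul_nonneg (by positivity) (hnn c))
        (Finset.mem_univ c)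
    refine le_trans ?_ h2
    rw [← e1, ← e2]
    have h3 : (1 : ℤ) ≤ D.m c := by exact_mod_cast D.m_pos c
    exact le_mul_of_one_le_left (hnn c) h3
  have h4 : ∑ c, (D.m c : ℤ) * ((𝒮.dim (D.S c) * 𝒮.h Y Y : ℕ) - (𝒮.h (𝒮.ten (D.S c) Y) Y : ℤ)) =
      ((𝒮.dim B * 𝒮.h Y Y : ℕ) : ℤ) - (𝒮.h (𝒮.ten B Y) Y : ℤ) := by
    rw [hpar, D.dim_eq, Finset.sum_mul]
    push_cast
    rw [← Finset.sum_sub_distrib]
    exact Finset.sum_congr rfl fun c _ => by ring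
  rw [h4] at h1
  omega

/-- If the energies are bounded from below then the sum of the squares of the dimensions of the
simple objects in the powers is bounded. -/
theorem s_SUM (hSCH : S_SCH.{u}) : S_SUM.{u} := by
  intro Ob 𝒮 O R ho hR ι _ S hS hort hocc
  choose j hj using hocc
  set E : ℕ → ℕ := fun n => 𝒮.h (𝒮.pw O n) (𝒮.pw O n) with hE
  set q : ℝ := (𝒮.dim O : ℝ) ^ 2 with hq
  have hq0 : 0 < q := by
    have : (0 : ℝ) < 𝒮.dim O := by exact_mod_cast ho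
    positivity
  have hR0 : 0 < R := by
    by_contra h
    have h0 : R = 0 := by omega
    have := hR 0
    rw [h0, zero_mul] at this
    have h1 : 0 < 𝒮.dim O ^ (2 * (0 + 1)) := pow_pos ho _
    omega
  have hdec : ∀ n, E (n + 1) ≤ 𝒮.dim O ^ 2 * E n := by
    intro n
    have h1 := hSCH 𝒮 (𝒮.pw O n) (𝒮.wq O 0)
    rw [h_wq, dim_wq] at h1
    exact h1
  set e : ℕ → ℝ := fun n => (E n : ℝ) / q ^ (n + 1) with he
  have hanti : Antitone e := by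
    refine antitone_nat_of_succ_le fun n => ?_
    simp only [he]
    rw [div_le_div_iff₀ (by positivity) (by positivity)]
    have h1 : (E (n + 1) : ℝ) ≤ q * E n := by
      rw [hq]
      exact_mod_cast hdec n
    calc (E (n + 1) : ℝ) * q ^ (n + 1) ≤ (q * E n) * q ^ (n + 1) :=
          mul_le_mul_of_nonneg_right h1 (by positivity)
      _ = E n * q ^ (n + 1 + 1) := by ring
  have hqn : ∀ n, q ^ (n + 1) = (𝒮.dim O : ℝ) ^ (2 * (n + 1)) := fun n => by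
    rw [hq, ← pow_mul]
  have hlow : ∀ n, 1 / (R : ℝ) ≤ e n := by
    intro n
    simp only [he]
    rw [div_le_div_iff₀ (by exact_mod_cast hR0) (by positivity), one_mul, hqn]
    have h3 := hR n
    rw [mul_comm R] at h3
    exact_mod_cast h3
  have hbdd : BddBelow (Set.range e) := ⟨1 / (R : ℝ), by
    rintro _ ⟨n, rfl⟩
    exact hlow n⟩
  have hlim := tendsto_atTop_ciInf hanti hbdd
  set l : ℝ := ⨅ i, e i with hl
  have hl0 : 0 < l := by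
    have h1 : 1 / (R : ℝ) ≤ l := ge_of_tendsto' hlim hlow
    have h2 : (0 : ℝ) < 1 / R := by
      have : (0 : ℝ) < R := by exact_mod_cast hR0
      positivity
    linarith
  have hmain : ∀ n, ∑ i, (𝒮.dim (S i) : ℝ) * (𝒮.dim (S i) * e n + q ^ (j i + 1) * e (n + (j i + 1)) -
      q ^ (j i + 1) * e n) ≤ R * e n := by
    intro n
    have h1 : ∀ i, 𝒮.dim (S i) * E n + E (n + j i + 1) ≤
        𝒮.dim O ^ (2 * (j i + 1)) * E n + 𝒮.h (S i) (𝒮.wq O n) := by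
      intro i
      have := defect_le 𝒮 hSCH (hS i) (hj i) (𝒮.pw O n)
      rw [h_wq, dim_wq, 𝒮.adj (S i)] at this
      exact this
    have h2 : ∑ i, 𝒮.h (S i) (𝒮.wq O n) * 𝒮.dim (S i) ≤ R * E n :=
      (fam 𝒮 hS hort _).trans (by rw [dim_wq]; exact hR n)
    have h3 : ∀ i, (𝒮.dim (S i) : ℝ) * (𝒮.dim (S i) * e n + q ^ (j i + 1) * e (n + (j i + 1)) -
        q ^ (j i + 1) * e n) ≤ (𝒮.h (S i) (𝒮.wq O n) * 𝒮.dim (S i) : ℕ) / q ^ (n + 1) := by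
      intro i
      have h4 : (𝒮.dim (S i) * E n + E (n + j i + 1) : ℝ) ≤
          q ^ (j i + 1) * E n + 𝒮.h (S i) (𝒮.wq O n) := by
        rw [hqn]
        exact_mod_cast h1 i
      have h5 : (𝒮.dim (S i) : ℝ) * (𝒮.dim (S i) * e n + q ^ (j i + 1) * e (n + (j i + 1)) -
          q ^ (j i + 1) * e n) =
          (𝒮.dim (S i) : ℝ) * (𝒮.dim (S i) * E n + E (n + j i + 1) - q ^ (j i + 1) * E n) /
            q ^ (n + 1) := by
        simp only [he]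
        rw [show n + (j i + 1) = n + j i + 1 by ring,
          show q ^ (n + j i + 1 + 1) = q ^ (j i + 1) * q ^ (n + 1) by ring]
        field_simp
      rw [h5]
      push_cast
      rw [div_le_div_iff_of_pos_right (by positivity), mul_comm (𝒮.h (S i) (𝒮.wq O n) : ℝ)]
      exact mul_le_mul_of_nonneg_left (by linarith) (by positivity)
    refine (Finset.sum_le_sum fun i _ => h3 i).trans ?_
    rw [← Finset.sum_div]
    simp only [he]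
    rw [← mul_div_assoc, div_le_div_iff_of_pos_right (by positivity)]
    exact_mod_cast h2
  have hlimS : Tendsto (fun n => ∑ i, (𝒮.dim (S i) : ℝ) * (𝒮.dim (S i) * e n +
      q ^ (j i + 1) * e (n + (j i + 1)) - q ^ (j i + 1) * e n)) atTop
      (𝓝 (∑ i, (𝒮.dim (S i) : ℝ) * (𝒮.dim (S i) * l + q ^ (j i + 1) * l - q ^ (j i + 1) * l))) := by
    refine tendsto_finsetSum _ fun i _ => ?_
    refine Tendsto.const_mul _ ?_
    refine Tendsto.sub (Tendsto.add (hlim.const_mul _) ?_) (hlim.const_mul _)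
    exact ((tendsto_add_atTop_iff_nat (j i + 1)).2 hlim).const_mul _
  have hfin := le_of_tendsto_of_tendsto' hlimS (hlim.const_mul (R : ℝ)) hmain
  have h6 : ∑ i, (𝒮.dim (S i) : ℝ) * (𝒮.dim (S i) * l + q ^ (j i + 1) * l - q ^ (j i + 1) * l) =
      (∑ i, (𝒮.dim (S i) : ℝ) ^ 2) * l := by
    rw [Finset.sum_mul]
    exact Finset.sum_congr rfl fun i _ => by ring
  rw [h6] at hfin
  have h7 := le_of_mul_le_mul_right hfin hl0
  exact_mod_cast h7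

end Pool.Agent.L7h26.RL
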