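import Pool.Agent.L7h85.RL.Stm2

/-!
# The triangle property
-/

set_option autoImplicit false

namespace Pool.Agent.L7h26.RL

open Finset
open Pool.Agent.L7h85.RL

universe u

namespace Tri

variable {Ob : Type u} {h : Ob → Ob → ℕ} {dim : Ob → ℕ}

lemma simple_dec (hdec : ∀ A, Nonempty (Dec h dim A)) (hsymm : ∀ A B, h A B = h B A) {S : Ob}
    (hS : h S S = 1) : ∃ T : Ob, 0 < dim T ∧ (∀ B, h S B = h T B) ∧ dim S = dim T ∧
    (∀ B B', h T B * h T B' ≤ h B B') := by
  obtain ⟨D⟩ := hdec S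
  have hm : ∀ c, h S (D.S c) = D.m c := by
    intro c
    rw [D.par]
    simp [D.ortho]
  have hsum : ∑ c, D.m c * D.m c = 1 := by
    rw [← hS, D.par]
    exact Finset.sum_congr rfl fun c _ => by rw [hsymm (D.S c) S, hm]
  have hcard : Fintype.card D.C ≤ 1 := by
    rw [← hsum, Fintype.card_eq_sum_ones]
    exact Finset.sum_le_sum fun c _ => Nat.mul_pos (D.m_pos c) (D.m_pos c)
  have : Subsingleton D.C := Fintype.card_le_one_iff_subsingleton.1 hcard
  have hne : Nonempty D.C := by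
    by_contra h
    rw [not_nonempty_iff] at h
    rw [Finset.univ_eq_empty, Finset.sum_empty] at hsum
    exact absurd hsum (by norm_num)
  obtain ⟨c⟩ := hne
  have hmc : D.m c = 1 := by
    rw [Fintype.sum_subsingleton _ c] at hsum
    exact Nat.eq_one_of_mul_eq_one_right hsum
  refine ⟨D.S c, D.dim_pos c, ?_, ?_, ?_⟩
  · intro B
    rw [D.par, Fintype.sum_subsingleton _ c, hmc, one_mul]
  · rw [D.dim_eq, Fintype.sum_subsingleton _ c, hmc, one_mul]
  · intro B B'
    have := D.bessel B B'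
    rwa [Fintype.sum_subsingleton _ c] at this

lemma bes (hdec : ∀ A, Nonempty (Dec h dim A)) (hsymm : ∀ A B, h A B = h B A) {S : Ob}
    (hS : h S S = 1) (B B' : Ob) : h S B * h S B' ≤ h B B' := by
  obtain ⟨T, _, h1, _, h2⟩ := simple_dec hdec hsymm hS
  rw [h1, h1]
  exact h2 B B'

lemma dpos (hdec : ∀ A, Nonempty (Dec h dim A)) (hsymm : ∀ A B, h A B = h B A) {S : Ob}
    (hS : h S S = 1) : 0 < dim S := by
  obtain ⟨T, h1, _, h3, _⟩ := simple_dec hdec hsymm hS
  rw [h3]
  exact h1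

lemma le_one (hdec : ∀ A, Nonempty (Dec h dim A)) (hsymm : ∀ A B, h A B = h B A) {S S' : Ob}
    (hS : h S S = 1) (hS' : h S' S' = 1) : h S S' ≤ 1 := by
  have h := bes hdec hsymm hS S' S'
  rw [hS'] at h
  nlinarith

lemma ne_zero_trans (hdec : ∀ A, Nonempty (Dec h dim A)) (hsymm : ∀ A B, h A B = h B A)
    {S S' T : Ob} (hS : h S S = 1) (h' : h S S' ≠ 0) (hT : h S T ≠ 0) : h S' T ≠ 0 := by
  have h1 := bes hdec hsymm hS S' T
  have h2 := Nat.mul_pos (Nat.pos_of_ne_zero h') (Nat.pos_of_ne_zero hT)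
  omega

lemma eqv (hdec : ∀ A, Nonempty (Dec h dim A)) (hsymm : ∀ A B, h A B = h B A) {S S' : Ob}
    (hS : h S S = 1) (hS' : h S' S' = 1) (h0 : h S S' ≠ 0) (B : Ob) : h S B = h S' B := by
  have h' : h S' S ≠ 0 := by rwa [hsymm]
  have key : ∀ T, h T T = 1 → h S T = h S' T := by
    intro T hT
    have h1 := le_one hdec hsymm hS hT
    have h2 := le_one hdec hsymm hS' hT
    have h3 := ne_zero_trans hdec hsymm (T := T) hS h0
    have h4 := ne_zero_trans hdec hsymm (T := T) hS' h'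
    by_cases h5 : h S T = 0
    · have : h S' T = 0 := by
        by_contra h6
        exact h4 h6 h5
      rw [h5, this]
    · have := h3 h5
      omega
  obtain ⟨D⟩ := hdec B
  rw [hsymm S B, hsymm S' B, D.par, D.par]
  refine Finset.sum_congr rfl fun c _ => ?_
  rw [hsymm (D.S c) S, hsymm (D.S c) S', key _ (by rw [D.ortho, if_pos rfl])]

lemma h_pos (hdec : ∀ A, Nonempty (Dec h dim A)) (hsymm : ∀ A B, h A B = h B A) {X : Ob}
    (hX : 0 < dim X) : 0 < h X X := by
  obtain ⟨D⟩ := hdec X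
  have hm : ∀ c, h X (D.S c) = D.m c := by
    intro c
    rw [D.par]
    simp [D.ortho]
  rw [D.dim_eq] at hX
  obtain ⟨c, _, hc⟩ := Finset.exists_ne_zero_of_sum_ne_zero hX.ne'
  rw [D.par]
  refine Finset.sum_pos' (fun c _ => Nat.zero_le _) ⟨c, Finset.mem_univ c, ?_⟩
  rw [hsymm, hm]
  exact Nat.mul_pos (D.m_pos c) (D.m_pos c)

end Tri

/-- The property `tri` of a system follows from the other ones. -/
theorem s_TRI : S_TRI.{u} := by
  intro Ob h dim ten dual hsymm hadj hcomm hdt hdec A B C hC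
  have key : ∀ S S', h S S = 1 → h S' S' = 1 → h S S' ≤ h (ten S C) (ten S' C) := by
    intro S S' hS hS'
    by_cases h0 : h S S' = 0
    · rw [h0]
      exact Nat.zero_le _
    · have h1 := Tri.le_one hdec hsymm hS hS'
      have h2 : h (ten S C) (ten S' C) = h (ten S' C) (ten S' C) := by
        rw [hadj, Tri.eqv hdec hsymm hS hS' h0, ← hadj]
      have h3 : 0 < h (ten S' C) (ten S' C) :=
        Tri.h_pos hdec hsymm (by rw [hdt]; exact Nat.mul_pos (Tri.dpos hdec hsymm hS') hC)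
      omega
  obtain ⟨D⟩ := hdec A
  obtain ⟨D'⟩ := hdec B
  have e1 : h A B = ∑ c, ∑ c', D.m c * (D'.m c' * h (D'.S c') (D.S c)) := by
    rw [D.par]
    refine Finset.sum_congr rfl fun c _ => ?_
    rw [hsymm, D'.par, Finset.mul_sum]
  have e2 : h (ten A C) (ten B C) =
      ∑ c, ∑ c', D.m c * (D'.m c' * h (ten (D'.S c') C) (ten (D.S c) C)) := by
    rw [hadj, D.par]
    refine Finset.sum_congr rfl fun c _ => ?_
    rw [← hadj, hsymm, hadj, D'.par, Finset.mul_sum]
    exact Finset.sum_congr rfl fun c' _ => by rw [← hadj]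
  rw [e1, e2]
  refine Finset.sum_le_sum fun c _ => Finset.sum_le_sum fun c' _ => ?_
  exact Nat.mul_le_mul_left _ (Nat.mul_le_mul_left _
    (key _ _ (by rw [D'.ortho, if_pos rfl]) (by rw [D.ortho, if_pos rfl])))

end Pool.Agent.L7h26.RL
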